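import Pool.Agent.Helper32.CS.FOL

/-!
# SX-PRT, SX-FOT: the leaves of the canonical tree, and fooling functions of several lists
-/

set_option autoImplicit false

namespace Pool.Agent.Helper78.SX

open Pool.Agent.Helper78.DT Pool.Agent.Helper51.ZP Pool.Agent.Helper65.CS Pool.Agent.Helper32.CS
open scoped Classical

section
variable {V : Type} [DecidableEq V]

theorem mx_fx {ρ : V → Option Bool} {U : Tm V} (hU : ∀ p ∈ U, ρ p.1 = none) {x y : V → Bool}
    (hy : ∀ v ∈ vr U, y v = x v) : mx ρ y = mx (fx ρ U x) y := by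
  funext v
  unfold mx fx
  by_cases hv : v ∈ vr U
  · rw [if_pos hv]
    obtain ⟨p, hp, rfl⟩ := Finset.mem_image.1 hv
    rw [hU p hp]
    simp [hy _ hv]
  · rw [if_neg hv]

theorem con_td (U D : Tm V) : Con (td U D) := by
  rintro v ⟨h1, h2⟩
  unfold td at h1 h2
  obtain ⟨a, _, h3⟩ := Finset.mem_image.1 h1
  obtain ⟨b, _, h4⟩ := Finset.mem_image.1 h2
  rw [Prod.mk.injEq] at h3 h4
  obtain ⟨rfl, h3⟩ := h3
  obtain ⟨rfl, h4⟩ := h4
  rw [h3] at h4
  exact Bool.noConfusion h4

theorem pr_zero {Ω : Type*} [Fintype Ω] {E : Ω → Prop} (h : ∀ w, ¬ E w) : pr E = 0 := by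
  unfold pr av
  simp [h]

theorem td_vr {U D : Tm V} {p : V × Bool} (hp : p ∈ td U D) : p.1 ∈ vr U := by
  unfold td at hp
  obtain ⟨v, hv, rfl⟩ := Finset.mem_image.1 hp
  exact hv

end

/-- **PRT.** The leaves of the canonical tree. -/
theorem prt_aux {V : Type} [Fintype V] [DecidableEq V] (f : DL V) : CL f →
    ∀ ρ : V → Option Bool, ∃ (ι : Type) (_ : Fintype ι) (T : ι → Tm V) (β : ι → Bool),
      Fintype.card ι ≤ 2 ^ dep f ρ ∧ (∀ i, Con (T i) ∧ ∀ p ∈ T i, ρ p.1 = none) ∧
      (∀ y : V → Bool, ∃! i, Sat (T i) y) ∧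
      ∀ i (y : V → Bool), Sat (T i) y → ev f (mx ρ y) = β i := by
  induction f with
  | nil =>
    intro _ ρ
    refine ⟨Unit, inferInstance, fun _ => ∅, fun _ => false, by simp [dep], ?_, ?_, ?_⟩
    · intro i
      exact ⟨fun v h => by simp at h, by simp⟩
    · intro y
      exact ⟨(), by simp [Sat], fun _ _ => rfl⟩
    · intro i y _
      rfl
  | cons e f ih =>
    intro hCL ρ
    have hCLf : CL f := fun e' he' => hCL e' (List.mem_cons_of_mem _ he')
    by_cases hF : Fls ρ e.1
    · obtain ⟨ι, hι, T, β, h1, h2, h3, h4⟩ := ih hCLf ρ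
      refine ⟨ι, hι, T, β, ?_, h2, h3, ?_⟩
      · rw [dep, if_pos hF]
        exact h1
      · intro i y hy
        rw [ev, if_neg (fls_not_sat hF y)]
        exact h4 i y hy
    · have hU : Con (fr ρ e.1) := by
        intro v hv
        exact hCL e List.mem_cons_self v ⟨(Finset.mem_filter.1 hv.1).1, (Finset.mem_filter.1 hv.2).1⟩
      have hdep : dep (e :: f) ρ = (fr ρ e.1).card + Finset.univ.sup fun x : V → Bool =>
          if Sat (fr ρ e.1) x then 0 else dep f (fx ρ (fr ρ e.1) x) := by
        rw [dep, if_neg hF]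
      generalize hd : (Finset.univ.sup fun x : V → Bool =>
          if Sat (fr ρ e.1) x then 0 else dep f (fx ρ (fr ρ e.1) x)) = d at hdep
      have hdx : ∀ x : V → Bool, ¬ Sat (fr ρ e.1) x → dep f (fx ρ (fr ρ e.1) x) ≤ d := by
        intro x hx
        have h1 := Finset.le_sup (f := fun x : V → Bool =>
          if Sat (fr ρ e.1) x then 0 else dep f (fx ρ (fr ρ e.1) x)) (Finset.mem_univ x)
        rw [hd] at h1
        rw [if_neg hx] at h1
        exact h1
      have hUfree : ∀ p ∈ fr ρ e.1, ρ p.1 = none := by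
        intro p hp
        unfold fr at hp
        exact (Finset.mem_filter.1 hp).2
      obtain ⟨U, hUdef⟩ : ∃ U, U = fr ρ e.1 := ⟨_, rfl⟩
      rw [← hUdef] at hU hdep hdx hUfree
      have hvrfree : ∀ v ∈ vr U, ρ v = none := by
        intro v hv
        obtain ⟨p, hp, rfl⟩ := Finset.mem_image.1 hv
        exact hUfree p hp
      -- the subtrees
      have key : ∀ D : {D : Tm V // D ∈ U.powerset},
          ∃ (ι : Type) (_ : Fintype ι) (T : ι → Tm V) (β : ι → Bool),
            Fintype.card ι ≤ 2 ^ d ∧
            (∀ i, Con (T i) ∧ (∀ p ∈ T i, ρ p.1 = none) ∧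
              ∀ y, Sat (T i) y → Sat (td U D.1) y) ∧
            (∀ y : V → Bool, Sat (td U D.1) y → ∃! i, Sat (T i) y) ∧
            ∀ i (y : V → Bool), Sat (T i) y → ev (e :: f) (mx ρ y) = β i := by
        rintro ⟨D, hD⟩
        have hDU := Finset.mem_powerset.1 hD
        by_cases hD0 : Sat U (xd U D)
        · refine ⟨Unit, inferInstance, fun _ => td U D, fun _ => e.2, ?_, ?_, ?_, ?_⟩
          · simpa using Nat.one_le_two_pow
          · intro i
            exact ⟨con_td U D, fun p hp => hvrfree _ (td_vr hp), fun y hy => hy⟩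
          · intro y hy
            exact ⟨(), hy, fun _ _ => rfl⟩
          · intro i y hy
            have h1 : Sat e.1 (mx ρ y) := by
              rw [sat_mx_iff hF, ← hUdef]
              intro p hp
              rw [← hD0 p hp]
              exact hy (p.1, xd U D p.1) (Finset.mem_image.2
                ⟨p.1, Finset.mem_image.2 ⟨p, hp, rfl⟩, rfl⟩)
            rw [ev, if_pos h1]
        · obtain ⟨ι, hι, T, β, h1, h2, h3, h4⟩ := ih hCLf (fx ρ U (xd U D))
          have hfree : ∀ i, ∀ p ∈ T i, p.1 ∉ vr U ∧ ρ p.1 = none := by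
            intro i p hp
            have h5 := (h2 i).2 p hp
            unfold fx at h5
            by_cases h6 : p.1 ∈ vr U
            · rw [if_pos h6] at h5
              simp at h5
            · rw [if_neg h6] at h5
              exact ⟨h6, h5⟩
          refine ⟨ι, hι, fun i => td U D ∪ T i, β, ?_, ?_, ?_, ?_⟩
          · exact h1.trans (Nat.pow_le_pow_right (by norm_num) (hdx _ hD0))
          · intro i
            refine ⟨?_, ?_, ?_⟩
            · rintro v ⟨h5, h6⟩
              rcases Finset.mem_union.1 h5 with h5 | h5 <;>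
                rcases Finset.mem_union.1 h6 with h6 | h6
              · exact con_td U D v ⟨h5, h6⟩
              · exact (hfree i _ h6).1 (show v ∈ vr U from td_vr h5)
              · exact (hfree i _ h5).1 (show v ∈ vr U from td_vr h6)
              · exact (h2 i).1 v ⟨h5, h6⟩
            · intro p hp
              rcases Finset.mem_union.1 hp with hp | hp
              · exact hvrfree _ (td_vr hp)
              · exact (hfree i p hp).2
            · intro y hy
              exact ((sat_union y).1 hy).1
          · intro y hy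
            obtain ⟨i, hi, hi2⟩ := h3 y
            refine ⟨i, (sat_union y).2 ⟨hy, hi⟩, fun j hj => hi2 j ((sat_union y).1 hj).2⟩
          · intro i y hy
            obtain ⟨hy1, hy2⟩ := (sat_union y).1 hy
            have hyx : ∀ v ∈ vr U, y v = xd U D v := fun v hv =>
              hy1 (v, xd U D v) (Finset.mem_image.2 ⟨v, hv, rfl⟩)
            have h5 : ¬ Sat e.1 (mx ρ y) := by
              rw [sat_mx_iff hF, ← hUdef]
              intro h6
              refine hD0 fun p hp => ?_
              rw [← hyx p.1 (Finset.mem_image.2 ⟨p, hp, rfl⟩)]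
              exact h6 p hp
            rw [ev, if_neg h5, mx_fx hUfree hyx]
            exact h4 i y hy2
      choose ι hι T β k1 k2 k3 k4 using key
      refine ⟨Σ D : {D : Tm V // D ∈ U.powerset}, ι D, inferInstance,
        fun a => T a.1 a.2, fun a => β a.1 a.2, ?_, ?_, ?_, ?_⟩
      · rw [Fintype.card_sigma]
        refine (Finset.sum_le_sum fun D _ => k1 D).trans ?_
        rw [Finset.sum_const, Finset.card_univ, Fintype.card_coe, Finset.card_powerset,
          smul_eq_mul, hdep, pow_add]
      · rintro ⟨D, i⟩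
        exact ⟨(k2 D i).1, (k2 D i).2.1⟩
      · intro y
        have hD : (U.filter fun p => y p.1 ≠ p.2) ∈ U.powerset :=
          Finset.mem_powerset.2 (Finset.filter_subset _ _)
        have hs : Sat (td U (U.filter fun p => y p.1 ≠ p.2)) y :=
          (sat_td hU (Finset.mem_powerset.1 hD) y).2 rfl
        obtain ⟨i, hi, hi2⟩ := k3 ⟨_, hD⟩ y hs
        refine ⟨⟨⟨_, hD⟩, i⟩, hi, ?_⟩
        rintro ⟨⟨D', hD'⟩, j⟩ hj
        have h5 := (k2 ⟨D', hD'⟩ j).2.2 y hj
        have h6 := (sat_td hU (Finset.mem_powerset.1 hD') y).1 h5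
        subst h6
        congr 1
        exact hi2 j hj
      · rintro ⟨D, i⟩ y hy
        exact k4 D i y hy

/-- **FOT.** Almost independent values fool functions of several decision lists whose canonical
trees are not deep. -/
theorem fot_aux {V : Type} [Fintype V] [DecidableEq V] {Ω : Type} [Fintype Ω] [Nonempty Ω]
    (S : Finset V) (ε : ℝ) (Y : Ω → V → Bool) {r : ℕ} (f : Fin r → DL V)
    (H : (Fin r → Bool) → Bool) (ρ : V → Option Bool) (hε : 0 ≤ ε) (hCL : ∀ j, CL (f j))
    (hρ : ∀ v, ρ v = none → v ∈ S) (hY : AI S ε Y) :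
    |pr (fun ω => H (fun j => ev (f j) (mx ρ (Y ω))) = true) -
      pr (fun y => H (fun j => ev (f j) (mx ρ y)) = true)| ≤ 2 ^ (∑ j, dep (f j) ρ) * ε := by
  choose ι hι T β k1 k2 k3 k4 using fun j => prt_aux (f j) (hCL j) ρ
  have hsat : ∀ (i : (j : Fin r) → ι j) (y : V → Bool),
      Sat (Finset.univ.biUnion fun j => T j (i j)) y ↔ ∀ j, Sat (T j (i j)) y := by
    intro i y
    constructor
    · intro h j p hp
      exact h p (Finset.mem_biUnion.2 ⟨j, Finset.mem_univ j, hp⟩)
    · intro h p hp
      obtain ⟨j, _, hp⟩ := Finset.mem_biUnion.1 hp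
      exact h j p hp
  have hsplit : ∀ {Ω' : Type} [Fintype Ω'] (Y' : Ω' → V → Bool),
      pr (fun ω => H (fun j => ev (f j) (mx ρ (Y' ω))) = true) =
      ∑ i : (j : Fin r) → ι j, if H (fun j => β j (i j)) = true then
        pr (fun ω => Sat (Finset.univ.biUnion fun j => T j (i j)) (Y' ω)) else 0 := by
    intro Ω' _ Y'
    rw [pr_split (Finset.univ : Finset ((j : Fin r) → ι j))
      (fun ω j => Classical.choose (k3 j (Y' ω))) (fun ω => Finset.mem_univ _)]
    refine Finset.sum_congr rfl fun i _ => ?_
    have hiff : ∀ ω, (fun j => Classical.choose (k3 j (Y' ω))) = i ↔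
        Sat (Finset.univ.biUnion fun j => T j (i j)) (Y' ω) := by
      intro ω
      rw [hsat]
      constructor
      · rintro rfl j
        exact (Classical.choose_spec (k3 j (Y' ω))).1
      · intro h
        funext j
        exact ((Classical.choose_spec (k3 j (Y' ω))).2 (i j) (h j)).symm
    by_cases hH : H (fun j => β j (i j)) = true
    · rw [if_pos hH]
      refine pr_congr fun ω => ?_
      rw [hiff]
      constructor
      · exact fun h => h.1
      · intro h
        refine ⟨h, ?_⟩
        have h1 : (fun j => ev (f j) (mx ρ (Y' ω))) = fun j => β j (i j) := by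
          funext j
          exact k4 j (i j) _ ((hsat i _).1 h j)
        rw [h1]
        exact hH
    · rw [if_neg hH]
      refine pr_zero fun w h => ?_
      obtain ⟨h1, h2⟩ := h
      rw [hiff] at h1
      have h3 : (fun j => ev (f j) (mx ρ (Y' w))) = fun j => β j (i j) := by
        funext j
        exact k4 j (i j) _ ((hsat i _).1 h1 j)
      rw [h3] at h2
      exact hH h2
  have hterm : ∀ i : (j : Fin r) → ι j,
      |(if H (fun j => β j (i j)) = true then
        pr (fun ω => Sat (Finset.univ.biUnion fun j => T j (i j)) (Y ω)) else 0) -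
      (if H (fun j => β j (i j)) = true then
        pr (fun y : V → Bool => Sat (Finset.univ.biUnion fun j => T j (i j)) y) else 0)| ≤ ε := by
    intro i
    by_cases hH : H (fun j => β j (i j)) = true
    · rw [if_pos hH, if_pos hH]
      by_cases hcon : Con (Finset.univ.biUnion fun j => T j (i j))
      · rw [show pr (fun y : V → Bool => Sat (Finset.univ.biUnion fun j => T j (i j)) y) =
          (1 / 2) ^ (Finset.univ.biUnion fun j => T j (i j)).card from pr_sat hcon]
        refine hY _ hcon ?_
        intro p hp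
        obtain ⟨j, _, hp⟩ := Finset.mem_biUnion.1 hp
        exact hρ _ ((k2 j (i j)).2 p hp)
      · have h0 : ∀ y : V → Bool, ¬ Sat (Finset.univ.biUnion fun j => T j (i j)) y := by
          intro y hy
          refine hcon fun v hv => ?_
          have h1 := hy _ hv.1
          have h2 := hy _ hv.2
          simp only at h1 h2
          rw [h1] at h2
          exact Bool.noConfusion h2
        rw [pr_zero fun w => h0 (Y w), pr_zero h0, sub_zero, abs_zero]
        exact hε
    · rw [if_neg hH, if_neg hH, sub_zero, abs_zero]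
      exact hε
  rw [hsplit Y, hsplit (fun y : V → Bool => y), ← Finset.sum_sub_distrib]
  refine (Finset.abs_sum_le_sum_abs _ _).trans ((Finset.sum_le_sum fun i _ => hterm i).trans ?_)
  rw [Finset.sum_const, Finset.card_univ, nsmul_eq_mul]
  refine mul_le_mul_of_nonneg_right ?_ hε
  rw [Fintype.card_pi, ← Finset.prod_pow_eq_pow_sum]
  push_cast
  exact Finset.prod_le_prod (fun j _ => by positivity) fun j _ => by exact_mod_cast k1 j

end Pool.Agent.Helper78.SX
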