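import Pool.Agent.Helper52.SX.Goals
import Pool.Agent.Helper78.SX.FOT

/-!
# SX-PRT, SX-FOT in the form of the goals
-/

set_option autoImplicit false

namespace Pool.Agent.Helper78.SX

open Pool.Agent.Helper78.DT Pool.Agent.Helper51.ZP Pool.Agent.Helper65.CS Pool.Agent.Helper52.SX
open scoped Classical

theorem prt : PrtStmt := by
  intro V _ _ f S ρ hCL hρ
  obtain ⟨ι, hι, T, β, h1, h2, h3, h4⟩ := prt_aux f hCL ρ
  exact ⟨ι, hι, T, β, h1, fun i => ⟨(h2 i).1, fun p hp => hρ _ ((h2 i).2 p hp)⟩, h3,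
    fun y i => h4 i y⟩

theorem fot : FotStmt := by
  intro V _ _ Ω _ _ S ε Y r m f H ρ hε hCL hρ hY hm
  refine (fot_aux S ε Y f H ρ hε hCL hρ hY).trans (mul_le_mul_of_nonneg_right ?_ hε)
  refine pow_le_pow_right₀ (by norm_num) ?_
  calc ∑ j, dep (f j) ρ ≤ ∑ _j : Fin r, m := Finset.sum_le_sum fun j _ => hm j
    _ = r * m := by simp

end Pool.Agent.Helper78.SX
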