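import Pool.Agent.Helper78.SX.PolA

/-!
# SX-POL: the two decision lists are computed in polynomial time
-/

set_option autoImplicit false

namespace Pool.Agent.Helper78.SX

open Pool.Agent.Helper81.CC Pool.Agent.Helper78.DT Pool.Agent.Helper65.CS Pool.Agent.Helper52.SX
open Pool.Agent.Helper78.JT (Clause CList Circuit)

theorem pol (hPTL : PtlStmt) : PolStmt := by
  intro α _ n N f K0 hn hN hf
  -- the leaves of one test, cleaned
  have hcl : PolyTime fun z : α × (List Clause × Bool) => cl (n z.1) z.2.1 :=
    cl_pt (PolyTime.comp hn (by fun_prop)) (by fun_prop)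
  have hlv : PolyTime fun z : α × (List Clause × Bool) =>
      lvs (cl (n z.1) z.2.1) (K0 * lg (N z.1)) :=
    lvs_pt hPTL K0 (N := fun z : α × (List Clause × Bool) => N z.1)
      (PolyTime.comp hN (by fun_prop)) hcl
  have hnx : PolyTime fun w : (α × (List Clause × Bool)) × List (ℕ × Bool) =>
      nx (cl (n w.1.1) w.1.2.1) w.2 :=
    nx_pt (F := fun w : (α × (List Clause × Bool)) × List (ℕ × Bool) =>
      cl (n w.1.1) w.1.2.1) (PolyTime.comp hcl (by fun_prop)) (by fun_prop)
  have hfil : PolyTime fun z : α × (List Clause × Bool) =>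
      (lvs (cl (n z.1) z.2.1) (K0 * lg (N z.1))).filter fun a =>
        decide (nx (cl (n z.1) z.2.1) a ≠ 0) := by
    refine PolyTime.filter (f := fun (z : α × (List Clause × Bool)) a =>
      decide (nx (cl (n z.1) z.2.1) a ≠ 0)) hlv ?_
    exact PolyTime.decide_ne hnx (by fun_prop)
  have hd1 : PolyTime fun w : (α × (List Clause × Bool)) × List (ℕ × Bool) =>
      decide (nx (cl (n w.1.1) w.1.2.1) w.2 = 1) := PolyTime.decide_eq hnx (by fun_prop)
  constructor
  · unfold vls
    refine PolyTime.flatMap (f := fun a (e : List Clause × Bool) =>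
      ((lvs (cl (n a) e.1) (K0 * lg (N a))).filter fun c =>
        decide (nx (cl (n a) e.1) c ≠ 0)).map fun c =>
          (c, decide (nx (cl (n a) e.1) c = 1) && e.2)) hf ?_
    refine PolyTime.list_map (f := fun (z : α × (List Clause × Bool)) c =>
      (c, decide (nx (cl (n z.1) z.2.1) c = 1) && z.2.2)) hfil ?_
    fun_prop
  · unfold ols
    refine PolyTime.append ?_ (by fun_prop)
    refine PolyTime.flatMap (f := fun a (e : List Clause × Bool) =>
      ((lvs (cl (n a) e.1) (K0 * lg (N a))).filter fun c =>
        decide (nx (cl (n a) e.1) c ≠ 0)).map fun c =>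
          (c, decide (nx (cl (n a) e.1) c = 1))) hf ?_
    refine PolyTime.list_map (f := fun (z : α × (List Clause × Bool)) c =>
      (c, decide (nx (cl (n z.1) z.2.1) c = 1))) hfil ?_
    fun_prop

end Pool.Agent.Helper78.SX
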