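import Pool.Agent.Helper60.JT.CKT

/-!
# SX-EXH: `scan` is rarely exhausted
-/

set_option autoImplicit false

namespace Pool.Agent.Helper78.SX

open Pool.Agent.Helper78.JT Pool.Agent.Helper78.DT Pool.Agent.Helper60.JT
open scoped Classical

/-- Reading a clause stops because the budget is `0`. -/
def rdx (n : ℕ) (b : ℕ → Bool) : Clause → ℕ → List ℕ → Bool
  | [], _, _ => false
  | p :: C, s, Q =>
    if p.1 ∈ Q ∨ n ≤ p.1 then
      if b p.1 = p.2 then false else rdx n b C s Q
    else if s = 0 then true
    else if b p.1 = p.2 then false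
    else rdx n b C (s - 1) (p.1 :: Q)

/-- Reading a CNF stops because one of the budgets is `0`. -/
def exh (n k : ℕ) (b : ℕ → Bool) : List Clause → ℕ → ℕ → List ℕ → Bool
  | [], _, _, _ => false
  | C :: F, s, s', Q =>
    if known n b Q C = true then exh n k b F s s' Q
    else if C.length ≤ k then
      if s = 0 then true
      else if (C.any fun p => decide (b p.1 = p.2)) = true then
        exh n k b F (s - 1) s' (C.map Prod.fst ++ Q)
      else false
    else
      match rdl n b C s' Q with
      | some (u, Q') => exh n k b F s u Q'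
      | none => rdx n b C s' Q

/-- reading a clause with `rdl`, and then the rest -/
def rexh (n k : ℕ) (b : ℕ → Bool) (F : List Clause) (s : ℕ) (D : Clause) (s' : ℕ) (Q : List ℕ) :
    Bool :=
  match rdl n b D s' Q with
  | some (u, Q') => exh n k b F s u Q'
  | none => rdx n b D s' Q

variable {n : ℕ}

theorem long_clause (k : ℕ) (F : List Clause) (s M : ℕ)
    (hF : ∀ (s' : ℕ) (Q : List ℕ) (σ : Fin n → Bool), PP (AQ n Q) σ
      (fun x => exh n k (cf x) F s s' Q = true) ≤ g k s s' M) :
    ∀ (D : Clause) (s' : ℕ) (Q : List ℕ) (σ : Fin n → Bool), Fa (AQ n Q) σ D → No D →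
    PP (AQ n Q) σ (fun x => rexh n k (cf x) F s D s' Q = true) ≤ g k s s' (M + 1) := by
  intro D
  induction D with
  | nil =>
    intro s' Q σ _ _
    refine (PP_false ?_).trans (g_nonneg ..)
    intro x _ h
    simp [rexh, rdl, rdx] at h
  | cons p D ih =>
    intro s' Q σ hfa hno
    by_cases hp : p.1 ∈ Q ∨ n ≤ p.1
    · refine (PP_mono ?_).trans (ih s' Q σ (fa_tail hfa) (no_tail hno))
      intro x hx hx1
      have hpf : cf x p.1 ≠ p.2 := by
        rw [fa_lit hx (mem_AQ'.2 hp)]
        exact hfa _ (List.mem_cons_self ..) (mem_AQ'.2 hp)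
      unfold rexh at hx1 ⊢
      rw [rdl, if_pos hp, if_neg hpf, rdx, if_pos hp, if_neg hpf] at hx1
      exact hx1
    · have hv : p.1 < n := by
        by_contra h; exact hp (Or.inr (by omega))
      have hvQ : p.1 ∉ Q := fun h => hp (Or.inl h)
      rcases Nat.eq_zero_or_pos s' with rfl | hs'
      · exact (PP_le_one ..).trans (g_zero_right ..)
      obtain ⟨t, rfl⟩ : ∃ t, s' = t + 1 := ⟨s' - 1, by omega⟩
      have hvA : (⟨p.1, hv⟩ : Fin n) ∉ AQ n Q := by rw [mem_AQ]; exact hvQ
      rw [PP_step' hvA σ p.2, ← AQ_cons Q hv, ← g_avg]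
      have h1 : PP (AQ n (p.1 :: Q)) (Function.update σ ⟨p.1, hv⟩ p.2)
          (fun x => rexh n k (cf x) F s (p :: D) (t + 1) Q = true) ≤ g k s t M := by
        refine (PP_mono ?_).trans (hF t (p.1 :: Q) _)
        intro x hx hx1
        have h3 := hx ⟨p.1, hv⟩ (by rw [mem_AQ]; exact List.mem_cons_self ..)
        rw [Function.update_self, ← cf_lt x hv] at h3
        unfold rexh at hx1
        rw [rdl, if_neg hp, if_neg (by omega), if_pos h3] at hx1
        simpa using hx1
      have h2 : PP (AQ n (p.1 :: Q)) (Function.update σ ⟨p.1, hv⟩ (!p.2))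
          (fun x => rexh n k (cf x) F s (p :: D) (t + 1) Q = true) ≤ g k s t (M + 1) := by
        refine (PP_mono ?_).trans (ih t (p.1 :: Q) _ (by
          rw [AQ_cons Q hv]; exact fa_upd hfa hno hv) (no_tail hno))
        intro x hx hx1
        have h3 := hx ⟨p.1, hv⟩ (by rw [mem_AQ]; exact List.mem_cons_self ..)
        rw [Function.update_self, ← cf_lt x hv] at h3
        have h4 : cf x p.1 ≠ p.2 := by
          rw [h3]; cases p.2 <;> simp
        unfold rexh at hx1 ⊢
        rw [rdl, if_neg hp, if_neg (by omega), if_neg h4, rdx, if_neg hp, if_neg (by omega),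
          if_neg h4] at hx1
        simpa using hx1
      linarith

theorem main (k : ℕ) : ∀ (F : List Clause) (s s' : ℕ) (Q : List ℕ) (σ : Fin n → Bool),
    PP (AQ n Q) σ (fun x => exh n k (cf x) F s s' Q = true) ≤
      g k s s' (F.filter fun C => decide (k < C.length)).length := by
  intro F
  induction F with
  | nil =>
    intro s s' Q σ
    refine (PP_false ?_).trans (g_nonneg ..)
    intro x _ h
    simp [exh] at h
  | cons C F ih =>
    intro s s' Q σ
    by_cases hk : known n (cf σ) Q C = true
    · have h1 : PP (AQ n Q) σ (fun x => exh n k (cf x) (C :: F) s s' Q = true) ≤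
          g k s s' (F.filter fun C => decide (k < C.length)).length := by
        refine (PP_mono ?_).trans (ih s s' Q σ)
        intro x hx h3
        rw [exh, if_pos (by rw [known_congr hx]; exact hk)] at h3
        exact h3
      refine h1.trans ?_
      rw [List.filter_cons]
      split_ifs
      · rw [List.length_cons]; exact g_mono ..
      · exact le_refl _
    · have hfa : Fa (AQ n Q) σ C := by
        intro p hp hpA h2
        apply hk
        unfold known
        rw [Bool.or_eq_true]
        right
        rw [List.any_eq_true]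
        refine ⟨p, hp, ?_⟩
        have := mem_AQ'.1 hpA
        simp only [Bool.and_eq_true, Bool.or_eq_true, decide_eq_true_eq]
        exact ⟨h2, this⟩
      have hno : No C := by
        intro p hp h2
        apply hk
        unfold known opp
        rw [Bool.or_eq_true]
        left
        rw [List.any_eq_true]
        exact ⟨p, hp, by simpa using h2⟩
      by_cases hC : C.length ≤ k
      · rw [List.filter_cons, if_neg (by simpa using hC)]
        rcases Nat.eq_zero_or_pos s with rfl | hs
        · exact (PP_le_one ..).trans (g_zero_left ..)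
        obtain ⟨t, rfl⟩ : ∃ t, s = t + 1 := ⟨s - 1, by omega⟩
        set M := (F.filter fun C => decide (k < C.length)).length with hM
        have h1 := short_clause (g k t s' M) (g_nonneg ..) (AQ n (C.map Prod.fst ++ Q))
          (fun x => exh n k (cf x) F t s' (C.map Prod.fst ++ Q) = true)
          (fun σ => ih t s' _ σ) C (AQ n Q) σ
          (fun v hv => (mem_AQ _ _).2 (List.mem_append.2 (Or.inr ((mem_AQ _ _).1 hv))))
          (fun p hp h => (mem_AQ _ _).2 (List.mem_append.2 (Or.inl
            (List.mem_map.2 ⟨p, hp, rfl⟩)))) hfa hno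
        refine (PP_mono ?_).trans (h1.trans ?_)
        · intro x hx h3
          rw [exh, if_neg (by rw [known_congr hx]; exact hk), if_pos hC, if_neg (by omega)] at h3
          by_cases h6 : (C.any fun p => decide (cf x p.1 = p.2)) = true
          · rw [if_pos h6] at h3
            rw [List.any_eq_true] at h6
            obtain ⟨p, hp, hp2⟩ := h6
            exact ⟨⟨p, hp, by simpa using hp2⟩, by simpa using h3⟩
          · rw [if_neg h6] at h3
            exact absurd h3 (by simp)
        · have h7 : (1 : ℝ) - 1 / 2 ^ C.length ≤ 1 - 1 / 2 ^ k := by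
            have : (1 : ℝ) / 2 ^ k ≤ 1 / 2 ^ C.length := by
              apply one_div_le_one_div_of_le (by positivity)
              exact pow_le_pow_right₀ (by norm_num) hC
            linarith
          exact (mul_le_mul_of_nonneg_right h7 (g_nonneg ..)).trans (g_step ..)
      · rw [List.filter_cons, if_pos (by simpa using hC), List.length_cons]
        refine (PP_mono ?_).trans (long_clause k F s _ (fun s' Q σ => ih s s' Q σ) C s' Q σ hfa
          hno)
        intro x hx h3
        rw [exh, if_neg (by rw [known_congr hx]; exact hk), if_neg hC] at h3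
        exact h3

/-- **EXH (A).** -/
theorem exh_pr (n k s s' : ℕ) (F : List Clause) :
    pr (fun r : Fin n → Bool => exh n k (cf r) F s s' [] = true) ≤
      (1 - 1 / 2 ^ k) ^ s +
        3 ^ (F.filter fun C => decide (k < C.length)).length * (2 / 3 : ℝ) ^ s' := by
  have h := main (n := n) k F s s' [] (fun _ => false)
  have h1 : AQ n [] = ∅ := by
    ext v; simp [mem_AQ]
  unfold Pool.Agent.Helper60.JT.PP at h
  rw [h1] at h
  have h2 : ∀ x : Fin n → Bool, mix ∅ (fun _ => false) x = x := by
    intro x; funext v; simp [mix]
  simp only [h2] at h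
  exact h

theorem rdx_of_none (n : ℕ) (b : ℕ → Bool) : ∀ (C : Clause) (s : ℕ) (Q : List ℕ),
    (∃ p ∈ C, b p.1 = p.2) → rdl n b C s Q = none → rdx n b C s Q = true := by
  intro C
  induction C with
  | nil => rintro s Q ⟨p, hp, -⟩; simp at hp
  | cons p C ih =>
    rintro s Q ⟨q, hq, hq2⟩ h
    rw [rdl] at h
    rw [rdx]
    by_cases hp : p.1 ∈ Q ∨ n ≤ p.1
    · rw [if_pos hp] at h ⊢
      by_cases hb : b p.1 = p.2
      · rw [if_pos hb] at h; simp at h
      · rw [if_neg hb] at h ⊢
        rcases List.mem_cons.1 hq with rfl | hq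
        · exact absurd hq2 hb
        · exact ih s Q ⟨q, hq, hq2⟩ h
    · rw [if_neg hp] at h ⊢
      by_cases hs : s = 0
      · rw [if_pos hs]
      · rw [if_neg hs] at h ⊢
        by_cases hb : b p.1 = p.2
        · rw [if_pos hb] at h; simp at h
        · rw [if_neg hb] at h ⊢
          rcases List.mem_cons.1 hq with rfl | hq
          · exact absurd hq2 hb
          · exact ih (s - 1) (p.1 :: Q) ⟨q, hq, hq2⟩ h

/-- **EXH (B).** A true CNF is recognized unless `scan` is exhausted. -/
theorem exh_of_none {n k : ℕ} (x : Fin n → Bool) : ∀ (F : List Clause) (s s' : ℕ) (Q : List ℕ),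
    Holds x F → scan n k (cf x) F s s' Q = none → exh n k (cf x) F s s' Q = true := by
  intro F
  induction F with
  | nil => intro s s' Q _ h; simp [scan] at h
  | cons C F ih =>
    intro s s' Q hH h
    have hC : ∃ p ∈ C, cf x p.1 = p.2 := hH C (List.mem_cons_self ..)
    have hF : Holds x F := fun D hD => hH D (List.mem_cons_of_mem _ hD)
    rw [scan] at h
    rw [exh]
    by_cases hk : known n (cf x) Q C = true
    · rw [if_pos hk] at h ⊢
      exact ih s s' Q hF h
    · rw [if_neg hk] at h ⊢
      by_cases hl : C.length ≤ k
      · rw [if_pos hl] at h ⊢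
        by_cases hs : s = 0
        · rw [if_pos hs]
        · rw [if_neg hs] at h ⊢
          have h6 : (C.any fun p => decide (cf x p.1 = p.2)) = true := by
            rw [List.any_eq_true]
            obtain ⟨p, hp, hp2⟩ := hC
            exact ⟨p, hp, by simpa using hp2⟩
          rw [if_pos h6] at h ⊢
          exact ih (s - 1) s' _ hF h
      · rw [if_neg hl] at h ⊢
        cases hr : rdl n (cf x) C s' Q with
        | none => exact rdx_of_none n (cf x) C s' Q hC hr
        | some a =>
          rw [hr] at h
          exact ih s a.1 a.2 hF h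

/-- **EXH (B').** If `scan` succeeds, then it is not exhausted. -/
theorem exh_of_some (n k : ℕ) (b : ℕ → Bool) : ∀ (F : List Clause) (s s' : ℕ) (Q Q' : List ℕ),
    scan n k b F s s' Q = some Q' → exh n k b F s s' Q = false := by
  intro F
  induction F with
  | nil => intro s s' Q Q' _; rfl
  | cons C F ih =>
    intro s s' Q Q' h
    rw [scan] at h
    rw [exh]
    by_cases hk : known n b Q C = true
    · rw [if_pos hk] at h ⊢
      exact ih s s' Q Q' h
    · rw [if_neg hk] at h ⊢
      by_cases hl : C.length ≤ k
      · rw [if_pos hl] at h ⊢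
        by_cases hs : s = 0
        · rw [if_pos hs] at h; simp at h
        · rw [if_neg hs] at h ⊢
          by_cases h6 : (C.any fun p => decide (b p.1 = p.2)) = true
          · rw [if_pos h6] at h ⊢
            exact ih (s - 1) s' _ Q' h
          · rw [if_neg h6] at h; simp at h
      · rw [if_neg hl] at h ⊢
        cases hr : rdl n b C s' Q with
        | none => rw [hr] at h; simp at h
        | some a =>
          rw [hr] at h
          exact ih s a.1 a.2 Q' h

end Pool.Agent.Helper78.SX
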