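import Pool.Agent.Helper78.SX.POL
import Pool.Agent.Helper63.JT.CKP

/-!
# SX-PCV: the tuple of a circuit is computed in polynomial time
-/

set_option autoImplicit false

namespace Pool.Agent.Helper78.SX

open Pool.Agent.Helper81.CC Pool.Agent.Helper78.DT Pool.Agent.Helper65.CS Pool.Agent.Helper52.SX
open Pool.Agent.Helper78.JT (Clause CList Circuit size)

theorem pcv (hPTL : PtlStmt) (hPOL : PolStmt) : PcvStmt := by
  intro K0
  have hsz : PolyTime fun z : Circuit => size z := Pool.Agent.Helper63.JT.pt_size
  refine ⟨hsz, ?_⟩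
  have hlg : PolyTime fun z : Circuit => lg (size z) := (hPTL Circuit _ _ _ hsz hsz hsz).1
  have hm : PolyTime fun z : Circuit => min z.2.1.length (lg (size z)) :=
    PolyTime.nat_min (by fun_prop) hlg
  have h4 : PolyTime fun z : Circuit => (4 * size z + 4 : ℕ) :=
    PolyTime.add (PolyTime.mul (by fun_prop) hsz) (by fun_prop)
  have h2m : PolyTime fun z : Circuit => 2 ^ min z.2.1.length (lg (size z)) := by
    refine (hPTL Circuit (fun z => 4 * size z + 4) (fun z => min z.2.1.length (lg (size z)))
      (fun z => size z) h4 hm hsz).2.2.2.2 fun z => ?_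
    refine (Nat.pow_le_pow_right (by norm_num) (min_le_right _ _)).trans ?_
    have := two_pow_le 1 (size z)
    simpa using this
  have h4m : PolyTime fun z : Circuit =>
      4 ^ min z.2.1.length (lg (size z)) - 2 ^ min z.2.1.length (lg (size z)) := by
    refine PolyTime.congr (f := fun z : Circuit => (2 ^ min z.2.1.length (lg (size z))) ^ 2 -
      2 ^ min z.2.1.length (lg (size z))) (PolyTime.sub (PolyTime.pow h2m 2) h2m) fun z => ?_
    rw [show (4 : ℕ) = 2 ^ 2 by norm_num, ← pow_mul, ← pow_mul, mul_comm]
  have hv := hPOL (Circuit × CList) (fun w => w.1.1) (fun w => size w.1) (fun w => w.2) K0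
    (by fun_prop) (PolyTime.comp hsz (by fun_prop)) (by fun_prop)
  unfold cnv
  refine PolyTime.pair (PolyTime.append ?_ ?_) (PolyTime.append ?_ (by fun_prop))
  · exact PolyTime.list_map (l := fun z : Circuit => z.2.1)
      (f := fun (z : Circuit) (f : CList) => vls z.1 (K0 * lg (size z)) f) (by fun_prop) hv.1
  · exact PolyTime.list_map (l := fun z : Circuit => z.2.1)
      (f := fun (z : Circuit) (f : CList) => ols z.1 (K0 * lg (size z)) f) (by fun_prop) hv.2
  · exact PolyTime.replicate h4m (by fun_prop)

end Pool.Agent.Helper78.SX
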