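import Pool.Agent.Helper52.SX.Goals2
import Pool.Agent.Helper48.CS.PTX

/-!
# SX-POL: cleaning, reading and the leaves are computed in polynomial time
-/

set_option autoImplicit false

namespace Pool.Agent.Helper78.SX

open Pool.Agent.Helper81.CC Pool.Agent.Helper78.DT Pool.Agent.Helper65.CS Pool.Agent.Helper52.SX
open Pool.Agent.Helper78.JT (Clause CList Circuit)

section
variable {α : Type} [ToData α]

theorem cl_pt {n : α → ℕ} {F : α → List Clause} (hn : PolyTime n) (hF : PolyTime F) :
    PolyTime fun a => cl (n a) (F a) := by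
  unfold cl
  refine PolyTime.list_map
    (f := fun (a : α) (C : Clause) => (C.filter fun p => decide (p.1 < n a)).dedup)
    (PolyTime.filter (f := fun (a : α) (C : Clause) =>
      !(C.any fun p => C.contains (p.1, !p.2) || (decide (n a ≤ p.1) && !p.2))) hF ?_) ?_
  · have h1 : PolyTime fun z : α × Clause => z.2.any fun p =>
        z.2.contains (p.1, !p.2) || (decide (n z.1 ≤ p.1) && !p.2) := by
      refine PolyTime.any (l := fun z : α × Clause => z.2) (f := fun (z : α × Clause) p =>
        z.2.contains (p.1, !p.2) || (decide (n z.1 ≤ p.1) && !p.2)) (by fun_prop) ?_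
      fun_prop
    exact PolyTime.not h1
  · refine Pool.Agent.Helper48.CS.pt_dedup ?_
    refine PolyTime.filter (l := fun z : α × Clause => z.2)
      (f := fun (z : α × Clause) p => decide (p.1 < n z.1)) (by fun_prop) ?_
    fun_prop

theorem nx_eq (F : List Clause) (a : List (ℕ × Bool)) : nx F a =
    (F.find? fun C => !(C.any fun p => a.contains p)).elim 1 fun C =>
      (C.find? fun p => !a.contains (p.1, !p.2)).elim 0 fun p => p.1 + 2 := by
  unfold nx
  cases F.find? fun C => !(C.any fun p => a.contains p) with
  | none => rfl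
  | some C =>
    simp only [Option.elim_some]
    cases C.find? fun p => !a.contains (p.1, !p.2) <;> rfl

theorem nx_pt {F : α → List Clause} {a : α → List (ℕ × Bool)} (hF : PolyTime F)
    (ha : PolyTime a) : PolyTime fun c => nx (F c) (a c) := by
  refine PolyTime.congr (f := fun c =>
    ((F c).find? fun C => !(C.any fun p => (a c).contains p)).elim 1 fun C =>
      (C.find? fun p => !(a c).contains (p.1, !p.2)).elim 0 fun p => p.1 + 2) ?_
    fun c => (nx_eq _ _).symm
  refine PolyTime.option_elim
    (o := fun c => (F c).find? fun C => !(C.any fun p => (a c).contains p))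
    (f := fun _ => 1) (g := fun c (C : Clause) =>
      (C.find? fun p => !(a c).contains (p.1, !p.2)).elim 0 fun p => p.1 + 2) ?_ (by fun_prop) ?_
  · refine PolyTime.find? (f := fun c (C : Clause) => !(C.any fun p => (a c).contains p)) hF ?_
    have h1 : PolyTime fun z : α × Clause => z.2.any fun p => (a z.1).contains p := by
      refine PolyTime.any (l := fun z : α × Clause => z.2)
        (f := fun (z : α × Clause) p => (a z.1).contains p) (by fun_prop) ?_
      fun_prop
    exact PolyTime.not h1
  · refine PolyTime.option_elim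
      (o := fun z : α × Clause => z.2.find? fun p => !(a z.1).contains (p.1, !p.2))
      (f := fun _ => 0) (g := fun (_ : α × Clause) (p : ℕ × Bool) => p.1 + 2) ?_ (by fun_prop)
      (by fun_prop)
    refine PolyTime.find? (l := fun z : α × Clause => z.2)
      (f := fun (z : α × Clause) p => !(a z.1).contains (p.1, !p.2)) (by fun_prop) ?_
    fun_prop

/-! ### The leaves -/

/-- One round of reading. -/
def rd (F : List Clause) (H : List (List (ℕ × Bool))) : List (List (ℕ × Bool)) :=
  H.flatMap fun a =>
    if 2 ≤ nx F a then [a ++ [(nx F a - 2, false)], a ++ [(nx F a - 2, true)]] else [a]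

theorem lvs_eq (F : List Clause) (D : ℕ) : lvs F D = (rd F)^[D] [[]] := rfl

theorem nx_le (F : List Clause) (a : List (ℕ × Bool)) : nx F a - 2 ≤ sz F := by
  rw [nx_eq]
  cases h : F.find? fun C => !(C.any fun p => a.contains p) with
  | none => simp
  | some C =>
    have h1 : sz C ≤ sz F := sz_le_of_mem (List.mem_of_find?_eq_some h)
    simp only [Option.elim_some]
    cases h2 : C.find? fun p => !a.contains (p.1, !p.2) with
    | none => simp
    | some p =>
      have h3 : sz p ≤ sz C := sz_le_of_mem (List.mem_of_find?_eq_some h2)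
      have h4 : sz p = 2 * p.1 + 1 + sz p.2 + 1 := by
        obtain ⟨v, b⟩ := p
        rw [sz_pair, sz_nat]
      simp only [Option.elim_some]
      omega

theorem rd_inv (F : List Clause) (k : ℕ) : ((rd F)^[k] [[]]).length ≤ 2 ^ k ∧
    ∀ a ∈ (rd F)^[k] [[]], a.length ≤ k ∧ ∀ p ∈ a, p.1 ≤ sz F := by
  induction k with
  | zero => simp
  | succ k ih =>
    rw [Function.iterate_succ_apply']
    generalize (rd F)^[k] [[]] = H at *
    obtain ⟨h1, h2⟩ := ih
    constructor
    · unfold rd
      rw [List.length_flatMap]
      calc (H.map fun a => (if 2 ≤ nx F a then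
          [a ++ [(nx F a - 2, false)], a ++ [(nx F a - 2, true)]] else [a]).length).sum
          ≤ (H.map fun _ => 2).sum := by
            refine List.sum_le_sum fun a _ => ?_
            split_ifs <;> simp
        _ = H.length * 2 := by simp
        _ ≤ 2 ^ (k + 1) := by
          rw [pow_succ]
          exact Nat.mul_le_mul_right _ h1
    · intro c hc
      unfold rd at hc
      rw [List.mem_flatMap] at hc
      obtain ⟨a, ha, hc⟩ := hc
      obtain ⟨h3, h4⟩ := h2 a ha
      by_cases h5 : 2 ≤ nx F a
      · rw [if_pos h5, List.mem_cons, List.mem_singleton] at hc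
        have h6 := nx_le F a
        rcases hc with rfl | rfl
        · refine ⟨by simpa using h3, fun p hp => ?_⟩
          rw [List.mem_append, List.mem_singleton] at hp
          rcases hp with hp | rfl
          · exact h4 p hp
          · exact h6
        · refine ⟨by simpa using h3, fun p hp => ?_⟩
          rw [List.mem_append, List.mem_singleton] at hp
          rcases hp with hp | rfl
          · exact h4 p hp
          · exact h6
      · rw [if_neg h5, List.mem_singleton] at hc
        subst hc
        exact ⟨by omega, h4⟩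

theorem lit_sz (p : ℕ × Bool) : sz p ≤ 2 * p.1 + 5 := by
  obtain ⟨v, b⟩ := p
  rw [sz_pair, sz_nat]
  have := sz_bool b
  simp only
  omega

theorem rd_sz (F : List Clause) {k D : ℕ} (hk : k ≤ D) :
    sz ((rd F)^[k] [[]]) ≤ 2 ^ D * (D * (2 * sz F + 6) + 2) + 1 := by
  obtain ⟨h1, h2⟩ := rd_inv F k
  refine (Pool.Agent.Helper51.ZP.sz_list_le (D * (2 * sz F + 6) + 1) _ ?_).trans ?_
  · intro a ha
    obtain ⟨h3, h4⟩ := h2 a ha
    refine (Pool.Agent.Helper51.ZP.sz_list_le (2 * sz F + 5) a ?_).trans ?_
    · intro p hp
      have h5 := lit_sz p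
      have h6 := h4 p hp
      omega
    · exact Nat.add_le_add_right (Nat.mul_le_mul_right _ (h3.trans hk)) _
  · exact Nat.add_le_add_right (Nat.mul_le_mul_right _
      (h1.trans (Nat.pow_le_pow_right (by norm_num) hk))) _

theorem two_pow_le (K0 N : ℕ) : 2 ^ (K0 * lg N) ≤ (4 * N + 4) ^ K0 := by
  rw [mul_comm, pow_mul]
  refine Nat.pow_le_pow_left ?_ _
  unfold lg
  rcases Nat.eq_zero_or_pos N with h | h
  · subst h
    simp
  · have h1 := Nat.pow_log_le_self 2 h.ne'
    rw [pow_add]
    omega

theorem lvs_pt (hPTL : PtlStmt) (K0 : ℕ) {N : α → ℕ} {F : α → List Clause} (hN : PolyTime N)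
    (hF : PolyTime F) : PolyTime fun a => lvs (F a) (K0 * lg (N a)) := by
  have hlg : PolyTime fun a => lg (N a) := (hPTL α N N N hN hN hN).1
  have hD : PolyTime fun a => K0 * lg (N a) := PolyTime.mul (by fun_prop) hlg
  have hW : PolyTime fun a => (4 * N a + 4) ^ K0 := PolyTime.pow (by fun_prop) K0
  refine PolyTime.congr (f := fun a => (rd (F a))^[K0 * lg (N a)] [[]]) ?_ fun a => rfl
  refine PolyTime.iterate_bd (n := fun a => K0 * lg (N a))
    (s0 := fun _ => ([[]] : List (List (ℕ × Bool)))) (step := fun a H => rd (F a) H) hD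
    (by fun_prop) ?_
    (B := fun a => (4 * N a + 4) ^ K0 * (K0 * lg (N a) * (2 * sz (F a) + 6) + 2) + 1) ?_ ?_
  · unfold rd
    refine PolyTime.flatMap (l := fun z : α × List (List (ℕ × Bool)) => z.2)
      (f := fun (z : α × List (List (ℕ × Bool))) a => if 2 ≤ nx (F z.1) a then
        [a ++ [(nx (F z.1) a - 2, false)], a ++ [(nx (F z.1) a - 2, true)]] else [a])
      (by fun_prop) ?_
    have h1 : PolyTime fun z : (α × List (List (ℕ × Bool))) × List (ℕ × Bool) =>
        nx (F z.1.1) z.2 := nx_pt (PolyTime.comp hF (by fun_prop)) (by fun_prop)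
    have h2 : PolyTime fun z : (α × List (List (ℕ × Bool))) × List (ℕ × Bool) =>
        nx (F z.1.1) z.2 - 2 := PolyTime.sub h1 (by fun_prop)
    refine PolyTime.itep (PolyTime.decide_le (by fun_prop) h1) ?_ (by fun_prop)
    fun_prop
  · exact ((PBd.nat hW).mul (((PBd.nat hD).mul (((PBd.const 2).mul (PBd.sz.comp hF)).add
      (PBd.const 6))).add (PBd.const 2))).add (PBd.const 1)
  · intro a k hk
    exact (rd_sz (F a) hk).trans (Nat.add_le_add_right (Nat.mul_le_mul_right _
      (two_pow_le K0 (N a))) _)

end

end Pool.Agent.Helper78.SX
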